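import Pool.Agent.H61.HB.Stmts4

set_option autoImplicit false

namespace HB

private theorem low_zero_left (w : V) : adv 0 w = 0 := by
  funext j k
  simp [adv, dot, trm]

private theorem low_zero_right (w : V) : adv w 0 = 0 := by
  funext j k
  simp [adv, dot, trm]

private theorem low_sum_left (hFSB : FSBStmt) (hABL : ABLStmt) (R : ℝ) (s : Fin 4 → V) (w : V)
    (hs : ∀ i, Fs R (s i)) (hw : Fs R w) (S : Finset (Fin 4)) :
    Fs R (∑ i ∈ S, s i) ∧ adv (∑ i ∈ S, s i) w = ∑ i ∈ S, adv (s i) w := by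
  induction S using Finset.induction_on with
  | empty =>
    refine ⟨fun j k _ => ?_, ?_⟩
    · rw [Finset.sum_empty]; rfl
    · rw [Finset.sum_empty, Finset.sum_empty]
      exact low_zero_left w
  | insert a S ha ih =>
    rw [Finset.sum_insert ha, Finset.sum_insert ha]
    obtain ⟨h1, h2⟩ := ih
    refine ⟨(hFSB.2.2.1 R _ _ (hs a) h1).1, ?_⟩
    rw [(hABL _ _ _ (hFSB.2.1 R 2 _ (hs a)) (hFSB.2.1 R 2 _ h1) (hFSB.2.1 R 2 _ hw)).1, h2]

private theorem low_sum_right (hFSB : FSBStmt) (hABL : ABLStmt) (R : ℝ) (s : Fin 4 → V) (w : V)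
    (hs : ∀ i, Fs R (s i)) (hw : Fs R w) (S : Finset (Fin 4)) :
    Fs R (∑ i ∈ S, s i) ∧ adv w (∑ i ∈ S, s i) = ∑ i ∈ S, adv w (s i) := by
  induction S using Finset.induction_on with
  | empty =>
    refine ⟨fun j k _ => ?_, ?_⟩
    · rw [Finset.sum_empty]; rfl
    · rw [Finset.sum_empty, Finset.sum_empty]
      exact low_zero_right w
  | insert a S ha ih =>
    rw [Finset.sum_insert ha, Finset.sum_insert ha]
    obtain ⟨h1, h2⟩ := ih
    refine ⟨(hFSB.2.2.1 R _ _ (hs a) h1).1, ?_⟩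
    rw [(hABL _ _ _ (hFSB.2.1 R 2 _ (hs a)) (hFSB.2.1 R 2 _ h1) (hFSB.2.1 R 2 _ hw)).2.1, h2]

private theorem low_sq (N : ℤ) (i : Fin 4) : sq (car N i) = (N : ℝ) ^ 2 := by
  fin_cases i <;> simp [sq, car, dir, sgn]

private theorem low_car (N : ℤ) (i : Fin 4) : car N i + car N (opp i) = 0 := by
  fin_cases i <;> simp [car, dir, sgn, opp]

private theorem low_mul (ν : ℝ) (p : V) (N : ℤ) (i : Fin 4) (j : Fin 2) (k : Z2) :
    mul (car N (opp i)) (pro ν p i) (pro ν p (opp i)) j k =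
      ((ν * (N : ℝ) : ℝ) : ℂ) * pro ν p (opp i) j k := by
  have hI : Complex.I * Complex.I = -1 := Complex.I_mul_I
  unfold mul
  rw [tsum_eq_single (0 : Z2)]
  · have h1 : ∑ i' : Fin 2, pro ν p i i' 0 * (Complex.I * (co i' (car N (opp i)) : ℂ)) =
        ((ν * (N : ℝ) : ℝ) : ℂ) := by
      rw [Fin.sum_univ_two]
      fin_cases i
      · simp [pro, car, co, dir, sgn, opp]
        linear_combination (-(ν : ℂ) * (N : ℂ)) * hI
      · simp [pro, car, co, dir, sgn, opp]
        linear_combination (-(ν : ℂ) * (N : ℂ)) * hI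
      · simp [pro, car, co, dir, sgn, opp]
        linear_combination (-(ν : ℂ) * (N : ℂ)) * hI
      · simp [pro, car, co, dir, sgn, opp]
        linear_combination (-(ν : ℂ) * (N : ℂ)) * hI
    rw [h1, sub_zero]
  · intro l hl
    have h1 : ∑ i' : Fin 2, pro ν p i i' l * (Complex.I * (co i' (car N (opp i)) : ℂ)) = 0 := by
      rw [Fin.sum_univ_two]
      fin_cases i <;> simp [pro, car, co, dir, sgn, opp, hl]
    rw [h1, zero_mul]

private theorem low_pro (ν : ℝ) (p : V) (j : Fin 2) (k : Z2) :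
    ∑ i : Fin 4, pro ν p (opp i) j k = 2 * p j k := by
  rw [Fin.sum_univ_four]
  fin_cases j
  · simp [pro, opp, dir, sgn]
    split_ifs <;> ring
  · simp [pro, opp, dir, sgn]
    split_ifs <;> ring

/-- **LOW**. -/
theorem low_thm (hFSB : FSBStmt) (hABL : ABLStmt) (hASH : ASHStmt) : LOWStmt := by
  intro ν M p N hM hp j k
  have hosc : osc ν p N = ∑ i, sh (car N i) (pro ν p i) := by
    funext j k
    simp [osc, Finset.sum_apply]
  have hpro : ∀ i, Fs M (pro ν p i) := fun i => hFSB.2.2.2.2.2.1 M ν p hM hp i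
  have hs : ∀ i, Fs (√((N : ℝ) ^ 2) + M) (sh (car N i) (pro ν p i)) := by
    intro i
    have h := hFSB.2.2.2.2.2.2 M (car N i) (pro ν p i) hM (hpro i)
    rwa [low_sq] at h
  have hall := (low_sum_left hFSB hABL _ _ _ hs (hs 0) Finset.univ).1
  have h1 : adv (osc ν p N) (osc ν p N) =
      ∑ i, ∑ i', adv (sh (car N i) (pro ν p i)) (sh (car N i') (pro ν p i')) := by
    rw [hosc, (low_sum_left hFSB hABL _ _ _ hs hall Finset.univ).2]
    refine Finset.sum_congr rfl fun i _ => ?_
    exact (low_sum_right hFSB hABL _ _ _ hs (hs i) Finset.univ).2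
  have h2 : ∀ i i', adv (sh (car N i) (pro ν p i)) (sh (car N i') (pro ν p i')) =
      sh (car N i + car N i')
        (adv (pro ν p i) (pro ν p i') + mul (car N i') (pro ν p i) (pro ν p i')) :=
    fun i i' => hASH M _ _ _ _ hM (hpro i) (hpro i')
  have h3 : ∀ i, ∑ i', adv (sh (car N i) (pro ν p i)) (sh (car N i') (pro ν p i')) j k =
      (adv (pro ν p i) (pro ν p (opp i)) j k +
        ((ν * (N : ℝ) : ℝ) : ℂ) * pro ν p (opp i) j k) +
      ∑ i' ∈ Finset.univ.erase (opp i), sh (car N i + car N i')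
        (adv (pro ν p i) (pro ν p i') + mul (car N i') (pro ν p i) (pro ν p i')) j k := by
    intro i
    rw [← Finset.add_sum_erase _ _ (Finset.mem_univ (opp i))]
    congr 1
    · rw [h2, low_car]
      show adv (pro ν p i) (pro ν p (opp i)) j (k - 0) +
        mul (car N (opp i)) (pro ν p i) (pro ν p (opp i)) j (k - 0) = _
      rw [sub_zero, low_mul]
    · exact Finset.sum_congr rfl fun i' _ => by rw [h2]
  have h4 : adv (osc ν p N) (osc ν p N) j k =
      ∑ i, ∑ i', adv (sh (car N i) (pro ν p i)) (sh (car N i') (pro ν p i')) j k := by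
    rw [h1]
    simp only [Finset.sum_apply]
  rw [h4, Finset.sum_congr rfl fun i _ => h3 i, Finset.sum_add_distrib, Finset.sum_add_distrib,
    ← Finset.mul_sum, low_pro]
  push_cast
  ring

end HB
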